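import Mathlib

open MvPolynomial

universe u

namespace Pool.Agent.Results.MP_ee5b76_ag.DefectUnbounded

/-- `V(I)` is a finite scheme over the field `k`: the algebra `k[x_1, ..., x_n] / I` is
finite-dimensional. -/
def IsFiniteScheme {k : Type u} [Field k] {n : ℕ} (I : Ideal (MvPolynomial (Fin n) k)) : Prop :=
  Module.Finite k (MvPolynomial (Fin n) k ⧸ I)

/-- The degree of the finite scheme `V(I)`. -/
noncomputable def deg {k : Type u} [Field k] {n : ℕ} (I : Ideal (MvPolynomial (Fin n) k)) : ℕ :=
  Module.finrank k (MvPolynomial (Fin n) k ⧸ I)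

/-- `V(J)` in affine `n`-space over `Spec R` is finite and flat over `Spec R`. -/
def IsFiniteFlat {R : Type u} [CommRing R] {n : ℕ} (J : Ideal (MvPolynomial (Fin n) R)) : Prop :=
  Module.Finite R (MvPolynomial (Fin n) R ⧸ J) ∧ Module.Flat R (MvPolynomial (Fin n) R ⧸ J)

/-- The base change of the family `V(J)` along a ring homomorphism `φ` (a fibre of the family when
the target of `φ` is a field). -/
noncomputable def fibre {A B : Type u} [CommRing A] [CommRing B] {n : ℕ} (φ : A →+* B)
    (J : Ideal (MvPolynomial (Fin n) A)) : Ideal (MvPolynomial (Fin n) B) :=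
  J.map (MvPolynomial.map φ)

/-- The geometric generic point of `Spec R` for a domain `R`. -/
noncomputable def geomGenericPoint (R : Type u) [CommRing R] [IsDomain R] :
    R →+* AlgebraicClosure (FractionRing R) :=
  algebraMap R (AlgebraicClosure (FractionRing R))

/-- A finite closed subscheme `V(I)` of affine `n`-space over `k` is smoothable if it is the fibre
over a `k`-point `π` of `Spec R` of a finite flat family `V(J)` of closed subschemes of affine
`n`-space over `Spec R`, where `R` is a noetherian domain containing `k`, such that the general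
(that is, the geometric generic) fibre of the family is reduced. -/
def IsSmoothable {k : Type u} [Field k] {n : ℕ} (I : Ideal (MvPolynomial (Fin n) k)) : Prop :=
  ∃ (R : Type u) (_ : CommRing R) (_ : IsDomain R) (_ : IsNoetherianRing R) (_ : Algebra k R)
    (π : R →ₐ[k] k) (J : Ideal (MvPolynomial (Fin n) R)),
    IsFiniteFlat J ∧ fibre (π : R →+* k) J = I ∧ (fibre (geomGenericPoint R) J).IsRadical

/-- The smoothability defect of `V(I)`: the minimum of `deg V(I') - deg V(I)` over all finite
smoothable closed subschemes `V(I')` of affine `n`-space that contain `V(I)`. -/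
noncomputable def smoothabilityDefect {k : Type u} [Field k] {n : ℕ}
    (I : Ideal (MvPolynomial (Fin n) k)) : ℕ :=
  sInf {m : ℕ | ∃ I' : Ideal (MvPolynomial (Fin n) k), I' ≤ I ∧ IsFiniteScheme I' ∧
    IsSmoothable I' ∧ deg I' = deg I + m}

lemma exists_relation {k : Type u} [Field k] {σ τ : Type} [Fintype σ] [Fintype τ]
    (h : Fintype.card τ < Fintype.card σ) (g : σ → MvPolynomial τ k) :
    ∃ Φ : MvPolynomial σ k, Φ ≠ 0 ∧ aeval g Φ = 0 := by
  by_contra hcon
  push Not at hcon
  have hind : AlgebraicIndependent k g := by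
    rw [algebraicIndependent_iff]
    intro p hp
    by_contra hne
    exact hcon p hne hp
  have h1 := hind.lift_cardinalMk_le_trdeg
  rw [MvPolynomial.trdeg_of_isDomain] at h1
  simp only [Cardinal.mk_fintype, Cardinal.lift_natCast] at h1
  have h2 : Fintype.card σ ≤ Fintype.card τ := by exact_mod_cast h1
  omega



lemma exists_points {L : Type u} [Field L] [IsAlgClosed L] {n D : ℕ}
    (J : Ideal (MvPolynomial (Fin n) L))
    [IsReduced (MvPolynomial (Fin n) L ⧸ J)] [Module.Finite L (MvPolynomial (Fin n) L ⧸ J)]
    (hD : Module.finrank L (MvPolynomial (Fin n) L ⧸ J) ≤ D) :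
    ∃ p : Fin D → Fin n → L, ∀ μ : MvPolynomial (Fin n) L →ₗ[L] L, (∀ f ∈ J, μ f = 0) →
      ∃ w : Fin D → L, ∀ f, μ f = ∑ s, w s * eval (p s) f := by
  classical
  have : IsArtinianRing (MvPolynomial (Fin n) L ⧸ J) := IsArtinianRing.of_finite L _
  have : Fintype (MaximalSpectrum (MvPolynomial (Fin n) L ⧸ J)) := Fintype.ofFinite _
  have key : ∀ m : MaximalSpectrum (MvPolynomial (Fin n) L ⧸ J),
      ∃ φ : (MvPolynomial (Fin n) L ⧸ J) →ₐ[L] L, RingHom.ker φ = m.asIdeal := by
    intro m
    have := m.isMaximal
    have bij : Function.Bijective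
        (algebraMap L ((MvPolynomial (Fin n) L ⧸ J) ⧸ m.asIdeal)) :=
      IsAlgClosed.algebraMap_bijective_of_isIntegral
    let e : L ≃ₐ[L] ((MvPolynomial (Fin n) L ⧸ J) ⧸ m.asIdeal) :=
      AlgEquiv.ofBijective (Algebra.ofId L _) bij
    refine ⟨(e.symm : _ →ₐ[L] L).comp (Ideal.Quotient.mkₐ L m.asIdeal), ?_⟩
    ext x
    simp [RingHom.mem_ker, Ideal.Quotient.eq_zero_iff_mem]
  choose φ hφ using key
  have hφinj : Function.Injective φ := by
    intro m m' h
    have : m.asIdeal = m'.asIdeal := by rw [← hφ m, ← hφ m', h]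
    exact MaximalSpectrum.ext this
  have hli : LinearIndependent L (fun m => (φ m).toLinearMap) := by
    have h1 := linearIndependent_monoidHom (MvPolynomial (Fin n) L ⧸ J) L
    have h2 : LinearIndependent L (fun m => ((φ m : (MvPolynomial (Fin n) L ⧸ J) →* L) :
        (MvPolynomial (Fin n) L ⧸ J) → L)) := by
      refine h1.comp (fun m => (φ m : (MvPolynomial (Fin n) L ⧸ J) →* L)) ?_
      intro m m' h
      apply hφinj
      ext x
      exact congrArg (fun g : (MvPolynomial (Fin n) L ⧸ J) →* L => g _) h
    refine LinearIndependent.of_comp (LinearMap.ltoFun L (MvPolynomial (Fin n) L ⧸ J) L L) ?_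
    exact h2
  have hcard : Fintype.card (MaximalSpectrum (MvPolynomial (Fin n) L ⧸ J)) ≤ D := by
    refine le_trans ?_ hD
    have := hli.fintype_card_le_finrank
    rwa [show Module.finrank L ((MvPolynomial (Fin n) L ⧸ J) →ₗ[L] L) =
      Module.finrank L (MvPolynomial (Fin n) L ⧸ J) from Subspace.dual_finrank_eq] at this
  obtain ⟨emb⟩ : Nonempty (MaximalSpectrum (MvPolynomial (Fin n) L ⧸ J) ↪ Fin D) :=
    Function.Embedding.nonempty_of_card_le (by simpa using hcard)
  refine ⟨Function.extend emb (fun m i => φ m (Ideal.Quotient.mk J (X i))) 0, ?_⟩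
  intro μ hμ
  let μ' : (MvPolynomial (Fin n) L ⧸ J) →ₗ[L] L :=
    (Submodule.liftQ (J.restrictScalars L) μ (by
      intro f hf
      exact hμ f hf))
  have hμ' : ∀ f, μ' (Ideal.Quotient.mk J f) = μ f := fun f => rfl
  have hspan : μ' ∈ Submodule.span L (Set.range (fun m => (φ m).toLinearMap)) := by
    apply mem_span_of_iInf_ker_le_ker
    intro q hq
    have hq0 : q = 0 := by
      have : q ∈ nilradical (MvPolynomial (Fin n) L ⧸ J) := by
        rw [nilradical, Ideal.radical_eq_sInf]
        rw [Submodule.mem_sInf]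
        intro P hP
        have hP' : Ideal.IsPrime P := hP.2
        have hmax : Ideal.IsMaximal P := inferInstance
        have := (Submodule.mem_iInf _).1 hq ⟨P, hmax⟩
        have h2 : q ∈ RingHom.ker (φ ⟨P, hmax⟩) := this
        rwa [hφ] at h2
      rwa [nilradical_eq_zero] at this
    simp [hq0]
  rw [Submodule.mem_span_range_iff_exists_fun] at hspan
  obtain ⟨c, hc⟩ := hspan
  refine ⟨Function.extend emb c 0, ?_⟩
  intro f
  rw [← hμ' f, ← hc]
  rw [LinearMap.sum_apply]
  refine Fintype.sum_of_injective emb emb.injective _ _ ?_ ?_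
  · intro s hs
    rw [Function.extend_apply' _ _ _ (by simpa using hs)]
    simp
  · intro m
    rw [emb.injective.extend_apply, emb.injective.extend_apply]
    simp only [LinearMap.smul_apply, AlgHom.toLinearMap_apply, smul_eq_mul]
    congr 1
    have : ((φ m).comp (Ideal.Quotient.mkₐ L J)) =
        (aeval (fun i => φ m (Ideal.Quotient.mk J (X i))) : MvPolynomial (Fin n) L →ₐ[L] L) := by
      apply MvPolynomial.algHom_ext
      intro i
      simp
    have h3 := congrArg (fun g : MvPolynomial (Fin n) L →ₐ[L] L => g f) this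
    simpa [aeval_eq_eval] using h3



lemma mk_C_mul {R : Type u} [CommRing R] {n : ℕ} (J : Ideal (MvPolynomial (Fin n) R)) (a : R)
    (G : MvPolynomial (Fin n) R) :
    Ideal.Quotient.mk J (C a * G) = a • Ideal.Quotient.mk J G := by
  rw [← MvPolynomial.smul_eq_C_mul]
  rfl

lemma mk_monomial {R : Type u} [CommRing R] {n : ℕ} (J : Ideal (MvPolynomial (Fin n) R)) (a : R)
    (m : Fin n →₀ ℕ) :
    Ideal.Quotient.mk J (monomial m a) = a • Ideal.Quotient.mk J (monomial m 1) := by
  rw [← mk_C_mul, C_mul_monomial, mul_one]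

/-- lift a functional on the special fibre to the family -/
lemma lift_functional {k R : Type u} [Field k] [CommRing R] [IsDomain R] [IsNoetherianRing R]
    [Algebra k R] {n : ℕ} (π : R →ₐ[k] k) (J : Ideal (MvPolynomial (Fin n) R))
    [Module.Finite R (MvPolynomial (Fin n) R ⧸ J)] [Module.Flat R (MvPolynomial (Fin n) R ⧸ J)]
    (μ : MvPolynomial (Fin n) k →ₗ[k] k)
    (hμ : ∀ f ∈ J.map (MvPolynomial.map (π : R →+* k)), μ f = 0) :
    ∃ l : MvPolynomial (Fin n) R →ₗ[R] R, (∀ F ∈ J, l F = 0) ∧
      ∀ F, π (l F) = μ (MvPolynomial.map (π : R →+* k) F) := by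
  have : Module.FinitePresentation R (MvPolynomial (Fin n) R ⧸ J) :=
    Module.finitePresentation_of_finite R _
  have : Module.Projective R (MvPolynomial (Fin n) R ⧸ J) :=
    Module.Flat.projective_of_finitePresentation
  let _ : Module R k := Module.compHom k (π : R →+* k)
  have hsmul : ∀ (r : R) (c : k), r • c = π r * c := fun r c => rfl
  let g0 : MvPolynomial (Fin n) R →ₗ[R] k :=
    { toFun := fun F => μ (MvPolynomial.map (π : R →+* k) F)
      map_add' := by intro a b; simp
      map_smul' := by
        intro r F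
        simp only [RingHom.id_apply]
        rw [hsmul, MvPolynomial.smul_eq_C_mul, map_mul, map_C, ← MvPolynomial.smul_eq_C_mul]
        simp }
  let g : (MvPolynomial (Fin n) R ⧸ J) →ₗ[R] k :=
    Submodule.liftQ (J.restrictScalars R) g0 (by
      intro F hF
      exact hμ _ (Ideal.mem_map_of_mem _ hF))
  let p : R →ₗ[R] k :=
    { toFun := π
      map_add' := map_add π
      map_smul' := by intro r s; simp [hsmul] }
  have hp : Function.Surjective p := by
    intro c
    exact ⟨algebraMap k R c, π.commutes c⟩
  obtain ⟨h, hh⟩ := Module.projective_lifting_property p g hp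
  refine ⟨h ∘ₗ ((Ideal.Quotient.mkₐ R J).toLinearMap), ?_, ?_⟩
  · intro F hF
    have h0 : (Ideal.Quotient.mkₐ R J) F = 0 := by
      simpa [Ideal.Quotient.eq_zero_iff_mem] using hF
    rw [LinearMap.comp_apply, AlgHom.toLinearMap_apply, h0, map_zero]
  · intro F
    exact congrArg (fun q : (MvPolynomial (Fin n) R ⧸ J) →ₗ[R] k =>
      q (Ideal.Quotient.mk J F)) hh

/-- extend a functional to the geometric generic fibre -/
lemma extend_functional {R L : Type u} [CommRing R] [Field L] [Algebra R L] {n : ℕ}
    (J : Ideal (MvPolynomial (Fin n) R)) (l : MvPolynomial (Fin n) R →ₗ[R] R)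
    (hl : ∀ F ∈ J, l F = 0) :
    ∃ μ : MvPolynomial (Fin n) L →ₗ[L] L,
      (∀ f ∈ J.map (MvPolynomial.map (algebraMap R L)), μ f = 0) ∧
      ∀ F, μ (MvPolynomial.map (algebraMap R L) F) = algebraMap R L (l F) := by
  let μ : MvPolynomial (Fin n) L →ₗ[L] L :=
    (MvPolynomial.basisMonomials (Fin n) L).constr L
      (fun m => algebraMap R L (l (monomial m 1)))
  have hμm : ∀ (m : Fin n →₀ ℕ), μ (monomial m 1) = algebraMap R L (l (monomial m 1)) := by
    intro m
    have := (MvPolynomial.basisMonomials (Fin n) L).constr_basis L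
      (fun m => algebraMap R L (l (monomial m 1))) m
    simpa using this
  have hμ : ∀ F, μ (MvPolynomial.map (algebraMap R L) F) = algebraMap R L (l F) := by
    intro F
    induction F using MvPolynomial.induction_on' with
    | monomial m a =>
      rw [map_monomial]
      have e1 : (monomial m (algebraMap R L a) : MvPolynomial (Fin n) L)
        = (algebraMap R L a) • monomial m 1 := by rw [smul_monomial, smul_eq_mul, mul_one]
      have e2 : (monomial m a : MvPolynomial (Fin n) R) = a • monomial m 1 := by
        rw [smul_monomial, smul_eq_mul, mul_one]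
      rw [e1, e2, map_smul, map_smul, hμm, smul_eq_mul, smul_eq_mul, map_mul]
    | add p q hp hq => simp [hp, hq]
  refine ⟨μ, ?_, hμ⟩
  intro f hf
  have hspan : ∀ f ∈ Ideal.span ((MvPolynomial.map (algebraMap R L)) '' (J : Set _)),
      ∀ g : MvPolynomial (Fin n) L, μ (g * f) = 0 := by
    intro f hf
    induction hf using Submodule.span_induction with
    | mem x hx =>
      obtain ⟨F, hF, rfl⟩ := hx
      intro g
      induction g using MvPolynomial.induction_on' with
      | monomial m a =>
        rw [show (monomial m a : MvPolynomial (Fin n) L) =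
          a • MvPolynomial.map (algebraMap R L) (monomial m 1) by simp [smul_monomial]]
        rw [smul_mul_assoc, map_smul, ← map_mul, hμ, hl _ (J.mul_mem_left _ hF)]
        simp
      | add p q hp hq => rw [add_mul, map_add, hp, hq, add_zero]
    | zero => intro g; simp
    | add x y _ _ hx hy => intro g; rw [mul_add, map_add, hx, hy, add_zero]
    | smul a x _ hx => intro g; rw [smul_eq_mul, ← mul_assoc]; exact hx _
  have := hspan f hf 1
  simpa using this


/-- dimension of the geometric generic fibre is at most that of the special fibre -/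
lemma finrank_generic_le {k R L : Type u} [Field k] [CommRing R] [IsDomain R]
    [Algebra k R] [Field L] [Algebra R L] (hinj : Function.Injective (algebraMap R L))
    {n : ℕ} (π : R →ₐ[k] k) (J : Ideal (MvPolynomial (Fin n) R))
    [Module.Finite R (MvPolynomial (Fin n) R ⧸ J)]
    [Module.Finite k (MvPolynomial (Fin n) k ⧸ J.map (MvPolynomial.map (π : R →+* k)))] :
    Module.Finite L (MvPolynomial (Fin n) L ⧸ J.map (MvPolynomial.map (algebraMap R L))) ∧
    Module.finrank L (MvPolynomial (Fin n) L ⧸ J.map (MvPolynomial.map (algebraMap R L))) ≤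
      Module.finrank k (MvPolynomial (Fin n) k ⧸ J.map (MvPolynomial.map (π : R →+* k))) := by
  classical
  have hπ : Function.Surjective (π : R →+* k) := fun c => ⟨algebraMap k R c, π.commutes c⟩
  have hmapsurj : Function.Surjective (MvPolynomial.map (σ := Fin n) (π : R →+* k)) :=
    MvPolynomial.map_surjective _ hπ
  set I := J.map (MvPolynomial.map (π : R →+* k)) with hI
  let b := Module.finBasis k (MvPolynomial (Fin n) k ⧸ I)
  have hlift : ∀ i, ∃ F : MvPolynomial (Fin n) R,
      Ideal.Quotient.mk I (MvPolynomial.map (π : R →+* k) F) = b i := by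
    intro i
    obtain ⟨f, hf⟩ := Ideal.Quotient.mk_surjective (b i)
    obtain ⟨F, rfl⟩ := hmapsurj f
    exact ⟨F, hf⟩
  choose F hF using hlift
  set N : Submodule R (MvPolynomial (Fin n) R ⧸ J) :=
    Submodule.span R (Set.range (fun i => Ideal.Quotient.mk J (F i))) with hN
  set M : Ideal R := RingHom.ker (π : R →+* k) with hM
  have htop : (⊤ : Submodule R (MvPolynomial (Fin n) R ⧸ J)) ≤ N ⊔ M • ⊤ := by
    intro q _
    obtain ⟨G, rfl⟩ := Ideal.Quotient.mk_surjective q
    have hrep := b.sum_repr (Ideal.Quotient.mk I (MvPolynomial.map (π : R →+* k) G))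
    set c := b.repr (Ideal.Quotient.mk I (MvPolynomial.map (π : R →+* k) G)) with hc
    set G' := ∑ i, C (algebraMap k R (c i)) * F i with hG'
    have h1 : Ideal.Quotient.mk I (MvPolynomial.map (π : R →+* k) (G - G')) = 0 := by
      rw [map_sub, map_sub, ← hrep, hG', map_sum, map_sum, ← Finset.sum_sub_distrib]
      apply Finset.sum_eq_zero
      intro i _
      have : (π : R →+* k) (algebraMap k R (c i)) = c i := π.commutes (c i)
      rw [map_mul, map_C, this, mk_C_mul, hF i]
      exact sub_self _
    rw [Ideal.Quotient.eq_zero_iff_mem, hI, Ideal.mem_map_iff_of_surjective _ hmapsurj] at h1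
    obtain ⟨H, hHJ, hH⟩ := h1
    have hK : MvPolynomial.map (π : R →+* k) (G - G' - H) = 0 := by
      rw [map_sub, hH, sub_self]
    have hdecomp : Ideal.Quotient.mk J G = Ideal.Quotient.mk J G' +
        Ideal.Quotient.mk J (G - G' - H) := by
      have : Ideal.Quotient.mk J H = 0 := by rwa [Ideal.Quotient.eq_zero_iff_mem]
      rw [map_sub, map_sub, this]
      ring
    rw [hdecomp]
    apply Submodule.add_mem_sup
    · rw [hG', map_sum]
      apply Submodule.sum_mem
      intro i _
      rw [mk_C_mul]
      exact Submodule.smul_mem _ _ (Submodule.subset_span ⟨i, rfl⟩)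
    · set K := G - G' - H
      rw [K.as_sum, map_sum]
      apply Submodule.sum_mem
      intro m _
      rw [mk_monomial]
      apply Submodule.smul_mem_smul _ Submodule.mem_top
      rw [hM, RingHom.mem_ker, ← coeff_map, hK, coeff_zero]
  obtain ⟨r, hr1, hr2⟩ := Submodule.exists_sub_one_mem_and_smul_le_of_fg_of_le_sup
    (Module.Finite.fg_top) le_rfl htop
  have hr0 : r ≠ 0 := by
    rintro rfl
    rw [hM, RingHom.mem_ker] at hr1
    simp at hr1
  have hrL : algebraMap R L r ≠ 0 := by
    intro h
    exact hr0 (hinj (by simpa using h))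
  set JL := J.map (MvPolynomial.map (algebraMap R L)) with hJL
  let T : (MvPolynomial (Fin n) R ⧸ J) →+* (MvPolynomial (Fin n) L ⧸ JL) :=
    Ideal.quotientMap JL (MvPolynomial.map (algebraMap R L)) Ideal.le_comap_map
  have hT : ∀ G, T (Ideal.Quotient.mk J G) =
      Ideal.Quotient.mk JL (MvPolynomial.map (algebraMap R L) G) := by
    intro G
    exact Ideal.quotientMap_mk
  have hTsmul : ∀ (a : R) (q), T (a • q) = algebraMap R L a • T q := by
    intro a q
    obtain ⟨G, rfl⟩ := Ideal.Quotient.mk_surjective q
    rw [← mk_C_mul, hT, hT, map_mul, map_C, mk_C_mul]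
  have hspan : Submodule.span L (Set.range (fun i => T (Ideal.Quotient.mk J (F i)))) = ⊤ := by
    rw [eq_top_iff]
    intro q _
    obtain ⟨f, rfl⟩ := Ideal.Quotient.mk_surjective q
    rw [f.as_sum, map_sum]
    apply Submodule.sum_mem
    intro m _
    have : Ideal.Quotient.mk JL (monomial m (coeff m f)) =
        (coeff m f) • T (Ideal.Quotient.mk J (monomial m 1)) := by
      rw [hT, map_monomial, map_one, ← mk_monomial]
    rw [this]
    apply Submodule.smul_mem
    have h2 : r • Ideal.Quotient.mk J (monomial m 1) ∈ N :=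
      hr2 (Submodule.smul_mem_pointwise_smul _ _ _ Submodule.mem_top)
    have h3 : ∀ y ∈ N, T y ∈
        Submodule.span L (Set.range (fun i => T (Ideal.Quotient.mk J (F i)))) := by
      intro y hy
      induction hy using Submodule.span_induction with
      | mem x hx =>
        obtain ⟨i, rfl⟩ := hx
        exact Submodule.subset_span ⟨i, rfl⟩
      | zero => simp
      | add x y _ _ hx hy => rw [map_add]; exact Submodule.add_mem _ hx hy
      | smul a x _ hx => rw [hTsmul]; exact Submodule.smul_mem _ _ hx
    have h4 := h3 _ h2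
    rw [hTsmul] at h4
    have h5 := Submodule.smul_mem _ (algebraMap R L r)⁻¹ h4
    rwa [smul_smul, inv_mul_cancel₀ hrL, one_smul] at h5
  constructor
  · exact Module.finite_def.2 ((Submodule.fg_def).2 ⟨_, Set.finite_range _, hspan⟩)
  · have h6 := finrank_range_le_card (R := L) (fun i => T (Ideal.Quotient.mk J (F i)))
    rw [Set.finrank, hspan, finrank_top] at h6
    simpa using h6



lemma relation_of_family {k R L : Type u} [Field k] [CommRing R] [IsDomain R] [IsNoetherianRing R]
    [Algebra k R] [Field L] [IsAlgClosed L] [Algebra R L]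
    (hinj : Function.Injective (algebraMap R L)) {n : ℕ}
    (π : R →ₐ[k] k) (J : Ideal (MvPolynomial (Fin n) R))
    [Module.Finite R (MvPolynomial (Fin n) R ⧸ J)] [Module.Flat R (MvPolynomial (Fin n) R ⧸ J)]
    [IsReduced (MvPolynomial (Fin n) L ⧸ J.map (MvPolynomial.map (algebraMap R L)))]
    [Module.Finite k (MvPolynomial (Fin n) k ⧸ J.map (MvPolynomial.map (π : R →+* k)))] {D : ℕ}
    (hD : Module.finrank k
      (MvPolynomial (Fin n) k ⧸ J.map (MvPolynomial.map (π : R →+* k))) ≤ D)
    {E T : Type} (a b : T → Fin n)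
    (Φ : MvPolynomial (E × T) k)
    (hΦ : aeval (fun et : E × T => ∑ s : Fin D,
      (X (Sum.inl (et.1, s)) * (X (Sum.inr (s, a et.2)) * X (Sum.inr (s, b et.2))) :
        MvPolynomial ((E × Fin D) ⊕ (Fin D × Fin n)) k)) Φ = 0)
    (μ : E → MvPolynomial (Fin n) k →ₗ[k] k)
    (hμ : ∀ e, ∀ f ∈ J.map (MvPolynomial.map (π : R →+* k)), μ e f = 0) :
    eval (fun et : E × T => μ et.1 (X (a et.2) * X (b et.2))) Φ = 0 := by
  obtain ⟨hLfin, hLrank⟩ := finrank_generic_le hinj π J
  obtain ⟨p, hp⟩ := exists_points (D := D)
    (J.map (MvPolynomial.map (algebraMap R L))) (hLrank.trans hD)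
  choose l hl0 hl using fun e => lift_functional π J (μ e) (hμ e)
  choose ν hν0 hν using fun e => extend_functional (L := L) J (l e) (hl0 e)
  choose w hw using fun e => hp (ν e) (hν0 e)
  have h1 : eval₂ ((algebraMap R L).comp (algebraMap k R))
      (fun et : E × T => ∑ s : Fin D, w et.1 s * (p s (a et.2) * p s (b et.2))) Φ = 0 := by
    have h2 := congrArg (eval₂Hom ((algebraMap R L).comp (algebraMap k R))
      (Sum.elim (fun es : E × Fin D => w es.1 es.2) (fun si : Fin D × Fin n => p si.1 si.2))) hΦ
    rw [map_zero, aeval_def, MvPolynomial.eval₂_comp_left] at h2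
    rw [← h2]
    congr 1
    · ext c
      simp
    · funext et
      simp
  have h4 : (fun et : E × T => ∑ s : Fin D, w et.1 s * (p s (a et.2) * p s (b et.2))) =
      fun et : E × T => algebraMap R L (l et.1 (X (a et.2) * X (b et.2))) := by
    funext et
    rw [← hν, hw]
    simp
  rw [h4] at h1
  have h5 : algebraMap R L (eval₂ (algebraMap k R)
      (fun et : E × T => l et.1 (X (a et.2) * X (b et.2))) Φ) = 0 := by
    rw [MvPolynomial.eval₂_comp_left]
    exact h1
  have h6 : eval₂ (algebraMap k R)
      (fun et : E × T => l et.1 (X (a et.2) * X (b et.2))) Φ = 0 := hinj (by simpa using h5)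
  have h7 := congrArg (π : R →+* k) h6
  rw [MvPolynomial.eval₂_comp_left, map_zero] at h7
  rw [← h7]
  rw [eval₂_eq_eval_map]
  have h8 : ((π : R →+* k).comp (algebraMap k R)) = RingHom.id k := by
    ext c
    exact π.commutes c
  rw [h8, map_id]
  congr 1
  congr 1
  funext et
  have h9 := hl et.1 (X (a et.2) * X (b et.2))
  simp only [map_mul, map_X] at h9
  simp [← h9]

lemma relation_of_smoothable {k : Type u} [Field k] {n : ℕ} {I : Ideal (MvPolynomial (Fin n) k)}
    (hs : IsSmoothable I) [hfin : Module.Finite k (MvPolynomial (Fin n) k ⧸ I)] {D : ℕ}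
    (hD : Module.finrank k (MvPolynomial (Fin n) k ⧸ I) ≤ D)
    {E T : Type} (a b : T → Fin n)
    (Φ : MvPolynomial (E × T) k)
    (hΦ : aeval (fun et : E × T => ∑ s : Fin D,
      (X (Sum.inl (et.1, s)) * (X (Sum.inr (s, a et.2)) * X (Sum.inr (s, b et.2))) :
        MvPolynomial ((E × Fin D) ⊕ (Fin D × Fin n)) k)) Φ = 0)
    (μ : E → MvPolynomial (Fin n) k →ₗ[k] k) (hμ : ∀ e, ∀ f ∈ I, μ e f = 0) :
    eval (fun et : E × T => μ et.1 (X (a et.2) * X (b et.2))) Φ = 0 := by
  obtain ⟨R, _, _, _, _, π, J, ⟨hJfin, hJflat⟩, rfl, hrad⟩ := hs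
  have hred : IsReduced (MvPolynomial (Fin n) (AlgebraicClosure (FractionRing R)) ⧸
      J.map (MvPolynomial.map (algebraMap R (AlgebraicClosure (FractionRing R))))) :=
    (Ideal.isRadical_iff_quotient_reduced _).1 hrad
  have hinj : Function.Injective (algebraMap R (AlgebraicClosure (FractionRing R))) := by
    rw [IsScalarTower.algebraMap_eq R (FractionRing R) (AlgebraicClosure (FractionRing R))]
    exact (algebraMap (FractionRing R) (AlgebraicClosure (FractionRing R))).injective.comp
      (IsFractionRing.injective R (FractionRing R))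
  have hfin' : Module.Finite k
      (MvPolynomial (Fin n) k ⧸ J.map (MvPolynomial.map (π : R →+* k))) := hfin
  exact relation_of_family hinj π J hD a b Φ hΦ μ hμ

section Algebra

variable {k : Type u} [Field k] {n : ℕ} {E T : Type} [Fintype E] [Fintype T]

/-- the exponent of the quadratic monomial `x_{a t} x_{b t}` -/
noncomputable def quad (a b : T → Fin n) (t : T) : Fin n →₀ ℕ :=
  Finsupp.single (a t) 1 + Finsupp.single (b t) 1

/-- the functional -/
noncomputable def func (a b : T → Fin n) (c : E × T → k) (e : E) : MvPolynomial (Fin n) k →ₗ[k] k :=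
  ∑ t, c (e, t) • lcoeff k (quad a b t)

omit [Fintype E] in
lemma func_apply (a b : T → Fin n) (c : E × T → k) (e : E) (f : MvPolynomial (Fin n) k) :
    func a b c e f = ∑ t, c (e, t) * coeff (quad a b t) f := by
  simp [func, lcoeff]

/-- all the coordinates -/
noncomputable def coords (a b : T → Fin n) (c : E × T → k) :
    MvPolynomial (Fin n) k →ₗ[k] (k × (Fin n → k) × (E → k)) :=
  LinearMap.prod (lcoeff k 0)
    (LinearMap.prod (LinearMap.pi fun i => lcoeff k (Finsupp.single i 1))
      (LinearMap.pi fun e => func a b c e))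

omit [Fintype E] in
lemma mem_ker_coords (a b : T → Fin n) (c : E × T → k) (f : MvPolynomial (Fin n) k) :
    f ∈ LinearMap.ker (coords a b c) ↔
      coeff 0 f = 0 ∧ (∀ i, coeff (Finsupp.single i 1) f = 0) ∧ ∀ e, func a b c e f = 0 := by
  rw [LinearMap.mem_ker]
  constructor
  · intro h
    exact ⟨congrArg (fun x => x.1) h, fun i => congrArg (fun x => x.2.1 i) h,
      fun e => congrArg (fun x => x.2.2 e) h⟩
  · rintro ⟨h0, h1, h2⟩
    exact Prod.ext h0 (Prod.ext (funext h1) (funext h2))

omit [Fintype E] in
lemma X_mul_mem (a b : T → Fin n) (c : E × T → k) (i : Fin n) (f : MvPolynomial (Fin n) k)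
    (hf : f ∈ LinearMap.ker (coords a b c)) : X i * f ∈ LinearMap.ker (coords a b c) := by
  classical
  rw [mem_ker_coords] at hf ⊢
  obtain ⟨h0, h1, h2⟩ := hf
  refine ⟨?_, ?_, ?_⟩
  · rw [coeff_X_mul']
    simp
  · intro j
    rw [coeff_X_mul']
    split_ifs with h
    · have : i = j := by
        rw [Finsupp.mem_support_iff, Finsupp.single_apply] at h
        by_contra hne
        exact h (if_neg fun hh => hne hh.symm)
      subst this
      simpa using h0
    · rfl
  · intro e
    rw [func_apply]
    apply Finset.sum_eq_zero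
    intro t _
    rw [coeff_X_mul']
    split_ifs with h
    · rw [Finsupp.mem_support_iff] at h
      have : ∃ j, quad a b t - Finsupp.single i 1 = Finsupp.single j 1 := by
        unfold quad at h ⊢
        by_cases hi : a t = i
        · exact ⟨b t, by rw [hi, add_tsub_cancel_left]⟩
        · have : b t = i := by
            by_contra hb
            apply h
            simp [hi, hb]
          exact ⟨a t, by rw [this, add_tsub_cancel_right]⟩
      obtain ⟨j, hj⟩ := this
      rw [hj, h1, mul_zero]
    · rw [mul_zero]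

/-- the ideal of the scheme -/
noncomputable def algIdeal (a b : T → Fin n) (c : E × T → k) : Ideal (MvPolynomial (Fin n) k) where
  carrier := LinearMap.ker (coords a b c)
  add_mem' := fun hx hy => (LinearMap.ker (coords a b c)).add_mem hx hy
  zero_mem' := (LinearMap.ker (coords a b c)).zero_mem
  smul_mem' := by
    intro g f hf
    rw [smul_eq_mul]
    induction g using MvPolynomial.induction_on with
    | C r =>
      rw [← smul_eq_C_mul]
      exact (LinearMap.ker (coords a b c)).smul_mem r hf
    | add p q hp hq =>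
      rw [add_mul]
      exact (LinearMap.ker (coords a b c)).add_mem hp hq
    | mul_X p i hp =>
      rw [mul_comm p, mul_assoc]
      exact X_mul_mem a b c i _ hp

omit [Fintype E] in
lemma mem_algIdeal (a b : T → Fin n) (c : E × T → k) (f : MvPolynomial (Fin n) k) :
    f ∈ algIdeal a b c ↔
      coeff 0 f = 0 ∧ (∀ i, coeff (Finsupp.single i 1) f = 0) ∧ ∀ e, func a b c e f = 0 :=
  mem_ker_coords a b c f

lemma finite_algIdeal (a b : T → Fin n) (c : E × T → k) :
    Module.Finite k (MvPolynomial (Fin n) k ⧸ algIdeal a b c) ∧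
    Module.finrank k (MvPolynomial (Fin n) k ⧸ algIdeal a b c) ≤ 1 + n + Fintype.card E := by
  let g : (MvPolynomial (Fin n) k ⧸ algIdeal a b c) →ₗ[k] (k × (Fin n → k) × (E → k)) :=
    Submodule.liftQ ((algIdeal a b c).restrictScalars k) (coords a b c) (fun f hf => hf)
  have hg : Function.Injective g := by
    rw [← LinearMap.ker_eq_bot, LinearMap.ker_eq_bot']
    intro q hq
    obtain ⟨f, rfl⟩ := Ideal.Quotient.mk_surjective q
    rw [Ideal.Quotient.eq_zero_iff_mem]
    exact hq
  refine ⟨Module.Finite.of_injective g hg, ?_⟩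
  have := LinearMap.finrank_le_finrank_of_injective hg
  simp only [Module.finrank_prod, Module.finrank_self, Module.finrank_fintype_fun_eq_card,
    Fintype.card_fin] at this
  omega

/-- general lower bound -/
lemma lower_bound [Infinite k] (a b : T → Fin n) (hinj : Function.Injective (quad a b))
    (D : ℕ) (hD : (Fintype.card E + n) * D < Fintype.card E * Fintype.card T) :
    ∃ c : E × T → k, ∀ I : Ideal (MvPolynomial (Fin n) k), I ≤ algIdeal a b c →
      Module.Finite k (MvPolynomial (Fin n) k ⧸ I) → IsSmoothable I →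
      D < Module.finrank k (MvPolynomial (Fin n) k ⧸ I) := by
  classical
  obtain ⟨Φ, hΦ0, hΦ⟩ := exists_relation (k := k) (σ := E × T)
    (τ := (E × Fin D) ⊕ (Fin D × Fin n)) (by
      simp only [Fintype.card_sum, Fintype.card_prod, Fintype.card_fin]
      nlinarith [hD]) (fun et : E × T => ∑ s : Fin D,
      (X (Sum.inl (et.1, s)) * (X (Sum.inr (s, a et.2)) * X (Sum.inr (s, b et.2))) :
        MvPolynomial ((E × Fin D) ⊕ (Fin D × Fin n)) k))
  have : ∃ c : E × T → k, eval c Φ ≠ 0 := by
    by_contra hcon
    push Not at hcon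
    exact hΦ0 (MvPolynomial.funext fun x => by rw [hcon x, map_zero])
  obtain ⟨c, hc⟩ := this
  refine ⟨c, ?_⟩
  intro I hI hfin hs
  by_contra hlt
  push Not at hlt
  apply hc
  have h1 := relation_of_smoothable hs hlt a b Φ hΦ (fun e => func a b c e) (by
    intro e f hf
    exact ((mem_algIdeal a b c f).1 (hI hf)).2.2 e)
  rw [← h1]
  congr 1
  congr 1
  funext et
  obtain ⟨e, t⟩ := et
  simp only
  rw [func_apply]
  rw [Finset.sum_eq_single t]
  · have : (X (a t) * X (b t) : MvPolynomial (Fin n) k) = monomial (quad a b t) 1 := by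
      rw [X, X, monomial_mul, quad, one_mul]
    rw [this, coeff_monomial, if_pos rfl, mul_one]
  · intro t' _ hne
    have : (X (a t) * X (b t) : MvPolynomial (Fin n) k) = monomial (quad a b t) 1 := by
      rw [X, X, monomial_mul, quad, one_mul]
    rw [this, coeff_monomial, if_neg, mul_zero]
    intro h
    exact hne (hinj h).symm
  · intro h
    exact absurd (Finset.mem_univ t) h

end Algebra


section Grid

variable {k : Type u} [Field k] {n : ℕ}

/-- evaluation at the grid points `t v_s` -/
noncomputable def gridEv (n : ℕ) (v : Fin 3 → k) :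
    MvPolynomial (Fin n) (Polynomial k) →ₐ[Polynomial k] ((Fin n → Fin 3) → Polynomial k) :=
  MvPolynomial.aeval (fun i s => Polynomial.X * Polynomial.C (v (s i)))

lemma gridEv_apply (v : Fin 3 → k) (F : MvPolynomial (Fin n) (Polynomial k)) (s : Fin n → Fin 3) :
    gridEv n v F s = eval (fun i => Polynomial.X * Polynomial.C (v (s i))) F := by
  have : ((Pi.evalAlgHom (Polynomial k) (fun _ : (Fin n → Fin 3) => Polynomial k) s).comp
      (gridEv n v)) = MvPolynomial.aeval (fun i => Polynomial.X * Polynomial.C (v (s i))) := by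
    apply MvPolynomial.algHom_ext
    intro i
    simp [gridEv]
  have h := congrArg (fun g : MvPolynomial (Fin n) (Polynomial k) →ₐ[Polynomial k] Polynomial k =>
    g F) this
  simpa [aeval_eq_eval] using h

/-- the ideal of the grid -/
noncomputable def gridIdeal (n : ℕ) (v : Fin 3 → k) : Ideal (MvPolynomial (Fin n) (Polynomial k)) :=
  RingHom.ker (gridEv n v)

lemma mem_gridIdeal (v : Fin 3 → k) (F : MvPolynomial (Fin n) (Polynomial k)) :
    F ∈ gridIdeal n v ↔
      ∀ s : Fin n → Fin 3, eval (fun i => Polynomial.X * Polynomial.C (v (s i))) F = 0 := by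
  rw [gridIdeal, RingHom.mem_ker]
  constructor
  · intro h s
    rw [← gridEv_apply, h]
    rfl
  · intro h
    funext s
    rw [gridEv_apply, h s]
    rfl

lemma grid_finite (v : Fin 3 → k) :
    Module.Finite (Polynomial k) (MvPolynomial (Fin n) (Polynomial k) ⧸ gridIdeal n v) := by
  exact Module.Finite.of_injective (Ideal.kerLiftAlg (gridEv n v)).toLinearMap
    (Ideal.kerLiftAlg_injective (gridEv n v))

lemma grid_flat (v : Fin 3 → k) :
    Module.Flat (Polynomial k) (MvPolynomial (Fin n) (Polynomial k) ⧸ gridIdeal n v) := by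
  have := grid_finite (n := n) v
  have hinj := Ideal.kerLiftAlg_injective (gridEv n v)
  have : Module.IsTorsionFree (Polynomial k)
      (MvPolynomial (Fin n) (Polynomial k) ⧸ gridIdeal n v) :=
    Function.Injective.moduleIsTorsionFree (Ideal.kerLiftAlg (gridEv n v)) hinj (by
      intro r x
      exact map_smul _ _ _)
  have : Module.Free (Polynomial k) (MvPolynomial (Fin n) (Polynomial k) ⧸ gridIdeal n v) :=
    Module.free_of_finite_type_torsion_free'
  infer_instance

lemma grid_low (v : Fin 3 → k) (hv : Function.Injective v)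
    (F : MvPolynomial (Fin n) (Polynomial k)) (hF : F ∈ gridIdeal n v) (m : Fin n →₀ ℕ)
    (hm : m.degree ≤ 2) : (coeff m F).coeff 0 = 0 := by
  classical
  rw [mem_gridIdeal] at hF
  set d := m.degree with hd
  let G : MvPolynomial (Fin n) k := ∑ m' ∈ F.support,
    monomial m' (if m'.degree ≤ d then (coeff m' F).coeff (d - m'.degree) else 0)
  have hcoeff : ∀ m', coeff m' G =
      if m'.degree ≤ d then (coeff m' F).coeff (d - m'.degree) else 0 := by
    intro m'
    rw [coeff_sum]
    simp only [coeff_monomial]
    rw [Finset.sum_ite_eq']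
    split_ifs with h1 h2 h2
    · rfl
    · rfl
    · rw [notMem_support_iff.1 h1]
      simp
    · rfl
  have hG : G = 0 := by
    apply eq_zero_of_eval_zero_at_prod_finset G (fun _ => Finset.univ.image v)
    · intro i
      rw [Finset.card_image_of_injective _ hv, Finset.card_univ, Fintype.card_fin,
        degreeOf_lt_iff (by norm_num)]
      intro m' hm'
      rw [mem_support_iff, hcoeff] at hm'
      have h1 : m'.degree ≤ d := by
        by_contra h
        exact hm' (if_neg h)
      have h2 : m' i ≤ m'.degree := Finsupp.le_degree i m'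
      omega
    · intro x hx
      have : ∀ i, ∃ j : Fin 3, v j = x i := by
        intro i
        simpa using hx i
      choose s hs using this
      have h1 := congrArg (fun p : Polynomial k => p.coeff d) (hF s)
      simp only [Polynomial.coeff_zero] at h1
      rw [eval_eq, Polynomial.finsetSum_coeff] at h1
      rw [← h1, map_sum]
      apply Finset.sum_congr rfl
      intro m' _
      rw [eval_monomial]
      have h2 : (∏ i ∈ m'.support, (Polynomial.X * Polynomial.C (v (s i))) ^ m' i) =
          Polynomial.C (∏ i ∈ m'.support, (x i) ^ m' i) * Polynomial.X ^ m'.degree := by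
        simp only [mul_pow]
        rw [Finset.prod_mul_distrib, Finset.prod_pow_eq_pow_sum, mul_comm, map_prod]
        congr 1
        apply Finset.prod_congr rfl
        intro i _
        rw [hs i, map_pow]
      rw [h2, ← mul_assoc, Polynomial.coeff_mul_X_pow', mul_comm (coeff m' F),
        Polynomial.coeff_C_mul]
      rw [Finsupp.prod]
      split_ifs with h3
      · ring
      · simp
  have h := hcoeff m
  rw [hG, coeff_zero, if_pos le_rfl, tsub_self] at h
  exact h.symm

lemma grid_reduced (v : Fin 3 → k) (hv : Function.Injective v) {L : Type u} [Field L]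
    [Algebra (Polynomial k) L] (hL : Function.Injective (algebraMap (Polynomial k) L)) :
    IsReduced (MvPolynomial (Fin n) L ⧸
      (gridIdeal n v).map (MvPolynomial.map (algebraMap (Polynomial k) L))) := by
  classical
  set JL := (gridIdeal n v).map (MvPolynomial.map (algebraMap (Polynomial k) L)) with hJL
  let w : Fin 3 → L := fun j => algebraMap (Polynomial k) L (Polynomial.X * Polynomial.C (v j))
  have hw : Function.Injective w := by
    intro i j h
    have h1 := hL h
    have h2 := congrArg (fun p : Polynomial k => p.coeff 1) h1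
    simp only [Polynomial.coeff_mul_C, Polynomial.coeff_X_one, one_mul] at h2
    exact hv h2
  have hvan : ∀ f ∈ JL, ∀ s : Fin n → Fin 3, eval (fun i => w (s i)) f = 0 := by
    intro f hf s
    have : JL ≤ RingHom.ker (eval (fun i => w (s i)) : MvPolynomial (Fin n) L →+* L) := by
      rw [hJL, Ideal.map_le_iff_le_comap]
      intro F hF
      rw [Ideal.mem_comap, RingHom.mem_ker, eval_map]
      have h1 := (mem_gridIdeal v F).1 hF s
      have h2 := congrArg (algebraMap (Polynomial k) L) h1
      rw [map_zero, ← MvPolynomial.eval₂_id, MvPolynomial.eval₂_comp_left, RingHom.comp_id] at h2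
      exact h2
    exact this hf
  refine ⟨fun q hq => ?_⟩
  obtain ⟨f, rfl⟩ := Ideal.Quotient.mk_surjective q
  obtain ⟨r, hr⟩ := hq
  rw [← map_pow, Ideal.Quotient.eq_zero_iff_mem] at hr
  rw [Ideal.Quotient.eq_zero_iff_mem]
  have hf0 : ∀ s : Fin n → Fin 3, eval (fun i => w (s i)) f = 0 := by
    intro s
    have := hvan _ hr s
    rw [map_pow] at this
    exact IsReduced.eq_zero _ ⟨r, this⟩
  obtain ⟨h, -, hf⟩ := combinatorial_nullstellensatz_exists_linearCombination
    (fun _ : Fin n => Finset.univ.image w) (fun _ => by simp) f (by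
      intro x hx
      have : ∀ i, ∃ j : Fin 3, w j = x i := by
        intro i
        simpa using hx i
      choose s hs using this
      have h1 := hf0 s
      simp only [hs] at h1
      exact h1)
  rw [hf, Finsupp.linearCombination_apply, Finsupp.sum]
  apply Ideal.sum_mem
  intro i _
  rw [smul_eq_mul]
  apply Ideal.mul_mem_left
  have h1 : (∏ r ∈ Finset.univ.image w, (X i - C r) : MvPolynomial (Fin n) L) =
      MvPolynomial.map (algebraMap (Polynomial k) L)
        (∏ j : Fin 3, (X i - C (Polynomial.X * Polynomial.C (v j)))) := by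
    rw [Finset.prod_image (fun a _ b _ hab => hw hab), map_prod]
    apply Finset.prod_congr rfl
    intro j _
    simp [w]
  rw [h1]
  apply Ideal.mem_map_of_mem
  rw [mem_gridIdeal]
  intro s
  rw [map_prod]
  apply Finset.prod_eq_zero (Finset.mem_univ (s i))
  simp

lemma finite_special {R : Type u} [CommRing R] (π : R →+* k) (hπ : Function.Surjective π)
    (J : Ideal (MvPolynomial (Fin n) R)) [h : Module.Finite R (MvPolynomial (Fin n) R ⧸ J)] :
    Module.Finite k (MvPolynomial (Fin n) k ⧸ J.map (MvPolynomial.map π)) := by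
  classical
  set I := J.map (MvPolynomial.map π) with hI
  let T : (MvPolynomial (Fin n) R ⧸ J) →+* (MvPolynomial (Fin n) k ⧸ I) :=
    Ideal.quotientMap I (MvPolynomial.map π) Ideal.le_comap_map
  have hT : ∀ G, T (Ideal.Quotient.mk J G) =
      Ideal.Quotient.mk I (MvPolynomial.map π G) := by
    intro G
    exact Ideal.quotientMap_mk
  have hTsmul : ∀ (a : R) (q), T (a • q) = π a • T q := by
    intro a q
    obtain ⟨G, rfl⟩ := Ideal.Quotient.mk_surjective q
    rw [← mk_C_mul, hT, hT, map_mul, map_C, mk_C_mul]
  obtain ⟨s, hs⟩ := h.fg_top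
  refine ⟨⟨s.image T, ?_⟩⟩
  rw [eq_top_iff]
  intro q _
  obtain ⟨f, rfl⟩ := Ideal.Quotient.mk_surjective q
  obtain ⟨F, rfl⟩ := MvPolynomial.map_surjective _ hπ f
  rw [← hT]
  have hmem : Ideal.Quotient.mk J F ∈ Submodule.span R (s : Set (MvPolynomial (Fin n) R ⧸ J)) := by
    rw [hs]; trivial
  generalize Ideal.Quotient.mk J F = y at hmem
  induction hmem using Submodule.span_induction with
  | mem x hx =>
    apply Submodule.subset_span
    rw [Finset.coe_image]
    exact ⟨x, hx, rfl⟩
  | zero => rw [map_zero]; exact Submodule.zero_mem _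
  | add x y _ _ hx hy => rw [map_add]; exact Submodule.add_mem _ hx hy
  | smul a x _ hx => rw [hTsmul]; exact Submodule.smul_mem _ _ hx

lemma exists_smoothable [Infinite k] (n : ℕ) : ∃ I : Ideal (MvPolynomial (Fin n) k),
    Module.Finite k (MvPolynomial (Fin n) k ⧸ I) ∧ IsSmoothable I ∧
    ∀ f ∈ I, ∀ m : Fin n →₀ ℕ, m.degree ≤ 2 → coeff m f = 0 := by
  obtain ⟨v⟩ : Nonempty (Fin 3 ↪ k) := ⟨(Fin.valEmbedding).trans (Infinite.natEmbedding k)⟩
  let π : Polynomial k →ₐ[k] k := Polynomial.aeval (0 : k)
  have hπ : Function.Surjective (π : Polynomial k →+* k) := fun c => ⟨Polynomial.C c, by simp [π]⟩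
  have hfin := grid_finite (n := n) v
  have hinj : Function.Injective
      (algebraMap (Polynomial k) (AlgebraicClosure (FractionRing (Polynomial k)))) := by
    rw [IsScalarTower.algebraMap_eq (Polynomial k) (FractionRing (Polynomial k))
      (AlgebraicClosure (FractionRing (Polynomial k)))]
    exact (algebraMap (FractionRing (Polynomial k)) _).injective.comp
      (IsFractionRing.injective (Polynomial k) (FractionRing (Polynomial k)))
  refine ⟨(gridIdeal n v).map (MvPolynomial.map (π : Polynomial k →+* k)), ?_, ?_, ?_⟩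
  · exact finite_special (π : Polynomial k →+* k) hπ (gridIdeal n v)
  · exact ⟨Polynomial k, inferInstance, inferInstance, inferInstance, inferInstance, π,
      gridIdeal n v, ⟨grid_finite v, grid_flat v⟩, rfl,
      (Ideal.isRadical_iff_quotient_reduced _).2 (grid_reduced v v.injective hinj)⟩
  · intro f hf m hm
    rw [Ideal.mem_map_iff_of_surjective _ (MvPolynomial.map_surjective _ hπ)] at hf
    obtain ⟨F, hF, rfl⟩ := hf
    rw [coeff_map]
    have := grid_low v v.injective F hF m hm
    rw [Polynomial.coeff_zero_eq_aeval_zero] at this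
    exact this

end Grid


/-- Over every algebraically closed field the smoothability defect is not bounded by any multiple
of the degree: for every `C` there is a finite subscheme `V(I)` of some affine space with
`C * deg V(I) < δ(V(I))`. For `C = 1` this answers the question. -/
theorem result (k : Type u) [Field k] [IsAlgClosed k] (C : ℕ) :
    ∃ (n : ℕ) (I : Ideal (MvPolynomial (Fin n) k)),
      IsFiniteScheme I ∧ C * deg I < smoothabilityDefect I := by
  classical
  have : Infinite k := IsAlgClosed.instInfinite
  set a : ℕ := 8 * (C + 1) + 1 with ha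
  let u : Fin a × Fin a → Fin (a + a) := fun t => Fin.castAdd a t.1
  let v : Fin a × Fin a → Fin (a + a) := fun t => Fin.natAdd a t.2
  have hne : ∀ i j : Fin a, Fin.castAdd a i ≠ Fin.natAdd a j := by
    intro i j h
    have := congrArg Fin.val h
    simp only [Fin.val_castAdd, Fin.val_natAdd] at this
    omega
  have hinj : Function.Injective (quad u v) := by
    intro t t' h
    have h1 := congrArg (fun f : Fin (a + a) →₀ ℕ => f (Fin.castAdd a t.1)) h
    have h2 := congrArg (fun f : Fin (a + a) →₀ ℕ => f (Fin.natAdd a t.2)) h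
    simp only [quad, u, v, Finsupp.add_apply, Finsupp.single_apply] at h1 h2
    rw [if_pos trivial, if_neg (hne _ _).symm, if_neg (hne _ _).symm] at h1
    rw [if_neg (hne _ _), if_pos trivial, if_neg (hne _ _)] at h2
    apply Prod.ext
    · by_contra hcon
      rw [if_neg (fun h3 => hcon (Fin.castAdd_injective a a h3).symm)] at h1
      omega
    · by_contra hcon
      rw [if_neg (fun h3 => hcon (Fin.natAdd_injective a a h3).symm)] at h2
      omega
  set D : ℕ := (C + 1) * (1 + (a + a) + 2 * a) with hD
  obtain ⟨c, hc⟩ := lower_bound (k := k) (E := Fin (2 * a)) u v hinj D (by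
    simp only [Fintype.card_fin, Fintype.card_prod]
    rw [hD]
    have h1 : 2 * ((C + 1) * (1 + 4 * a)) < a * a := by
      rw [ha]; nlinarith
    have h2 : 0 < a := by omega
    calc (2 * a + (a + a)) * ((C + 1) * (1 + (a + a) + 2 * a))
        = (2 * a) * (2 * ((C + 1) * (1 + 4 * a))) := by ring
      _ < (2 * a) * (a * a) := by
        apply Nat.mul_lt_mul_of_pos_left h1
        omega)
  obtain ⟨hfin, hrank⟩ := finite_algIdeal (k := k) u v c
  refine ⟨a + a, algIdeal u v c, hfin, ?_⟩
  simp only [Fintype.card_fin] at hrank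
  have hbound : ∀ m : ℕ, (∃ I' : Ideal (MvPolynomial (Fin (a + a)) k), I' ≤ algIdeal u v c ∧
      IsFiniteScheme I' ∧ IsSmoothable I' ∧ deg I' = deg (algIdeal u v c) + m) →
      C * deg (algIdeal u v c) < m := by
    rintro m ⟨I', hle, hfin', hs, heq⟩
    have h1 := hc I' hle hfin' hs
    unfold deg at heq ⊢
    rw [heq] at h1
    have h2 : (C + 1) * Module.finrank k (MvPolynomial (Fin (a + a)) k ⧸ algIdeal u v c) ≤ D :=
      Nat.mul_le_mul_left _ hrank
    rw [Nat.add_mul, one_mul] at h2
    omega
  have hnonempty : ({m : ℕ | ∃ I' : Ideal (MvPolynomial (Fin (a + a)) k), I' ≤ algIdeal u v c ∧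
      IsFiniteScheme I' ∧ IsSmoothable I' ∧ deg I' = deg (algIdeal u v c) + m}).Nonempty := by
    obtain ⟨I', hfin', hs, hlow⟩ := exists_smoothable (k := k) (a + a)
    have hle : I' ≤ algIdeal u v c := by
      intro f hf
      rw [mem_algIdeal]
      refine ⟨hlow f hf 0 (by simp), fun i => hlow f hf _ (by simp), fun e => ?_⟩
      rw [func_apply]
      apply Finset.sum_eq_zero
      intro t _
      rw [hlow f hf (quad u v t) (by simp [quad]), mul_zero]
    have hle' : Module.finrank k (MvPolynomial (Fin (a + a)) k ⧸ algIdeal u v c) ≤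
        Module.finrank k (MvPolynomial (Fin (a + a)) k ⧸ I') := by
      apply LinearMap.finrank_le_finrank_of_surjective
        (f := (Ideal.Quotient.factorₐ k hle).toLinearMap)
      exact Ideal.Quotient.factor_surjective hle
    exact ⟨_, I', hle, hfin', hs, (Nat.add_sub_of_le hle').symm⟩
  exact hbound _ (Nat.sInf_mem hnonempty)

end Pool.Agent.Results.MP_ee5b76_ag.DefectUnbounded
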